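import Pool.Agent.Helper90.MZ.StmtsA

/-! Module WBB: weight, basic facts. -/

set_option autoImplicit false

namespace Pool.Agent.Helper90.MZ

open Pool.Agent.Helper90.TS

variable {V G : Type} [Group G] [MulAction G V] {X : Ctx V G}

theorem wbb_cnt {m : ℕ} (S : Fin m → Set V) (hS : ∀ i, (S i).Countable) (P : Set (Fin m)) :
    (⋃ i ∈ P, S i).Countable :=
  Set.Countable.biUnion (Set.to_countable P) (fun i _ => hS i)

theorem wbb_sub {m : ℕ} (S : Fin m → Set V) (P Q : Set (Fin m)) (h : P ⊆ Q) :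
    (⋃ i ∈ P, S i) ⊆ ⋃ i ∈ Q, S i :=
  Set.biUnion_subset_biUnion_left h

theorem wbb_two (A u Y : Set V) (k : ℕ) (hA : A.Countable) (hu : u.Countable)
    (hY : Y.Countable) (h : SI X A u Y) (hw : WB X A u k) : WB X (A ∪ Y) u k := by
  intro Y' hY' h' m S hS hI
  rw [Set.union_assoc] at hI ⊢
  exact hw (Y ∪ Y') (hY.union hY') (si_trans hA hu hY hY' h h') m S hS hI

theorem wbb_three (hIND : ST_IND) (A u v : Set V) (k l : ℕ) (hA : A.Countable)
    (hu : u.Countable) (hv : v.Countable) (h1 : WB X A u k) (h2 : WB X (A ∪ u) v l) :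
    WB X A (u ∪ v) (k + l) := by
  intro Y hY hI m S hS hInd
  have e1 := (si_unionl hA hu hY hv).1 hI
  obtain ⟨J1, hJ1, hS1⟩ := h1 Y hY e1.1 m S hS hInd
  classical
  let S' : Fin m → Set V := fun i => if i ∈ J1 then ∅ else S i
  have hsub : ∀ i, S' i ⊆ S i := by
    intro i x hx
    by_cases hi : i ∈ J1
    · simp only [S', if_pos hi] at hx
      exact absurd hx (Set.notMem_empty x)
    · simpa only [S', if_neg hi] using hx
  have hS' : ∀ i, (S' i).Countable := fun i => (hS i).mono (hsub i)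
  have hAY : (A ∪ Y).Countable := hA.union hY
  have hInd1 : Ind X (A ∪ Y) S' := by
    intro I J hIJ
    refine si_left (Set.iUnion₂_mono fun i _ => hsub i) ?_
    exact si_right hAY (wbb_cnt S hS I) (wbb_cnt S hS J) (Set.iUnion₂_mono fun i _ => hsub i)
      (hInd I J hIJ)
  have hU : SI X (A ∪ Y) (⋃ i, S' i) u := by
    refine si_left ?_ hS1
    intro x hx
    rw [Set.mem_iUnion] at hx
    obtain ⟨i, hi⟩ := hx
    have hiJ : i ∉ J1 := by
      intro h
      simp only [S', if_pos h] at hi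
      exact absurd hi (Set.notMem_empty x)
    exact Set.mem_biUnion (show i ∈ {i | i ∉ J1} from hiJ) (hsub i hi)
  have hInd2 : Ind X (A ∪ Y ∪ u) S' :=
    (hIND V G X (A ∪ Y) hAY).2.2.2.1 (Fin m) S' u hS' hu hInd1 hU
  have e : A ∪ Y ∪ u = A ∪ u ∪ Y := Set.union_right_comm A Y u
  rw [e] at hInd2
  obtain ⟨J2, hJ2, hS2⟩ := h2 Y hY e1.2 m S' hS' hInd2
  refine ⟨J1 ∪ J2, (Finset.card_union_le _ _).trans (by omega), ?_⟩
  refine (si_union hAY (wbb_cnt S hS _) hu hv).2 ⟨si_left ?_ hS1, ?_⟩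
  · refine wbb_sub S _ _ ?_
    intro i hi
    simp only [Set.mem_setOf_eq, Finset.mem_union, not_or] at hi ⊢
    exact hi.1
  · rw [e]
    refine si_left ?_ hS2
    intro x hx
    rw [Set.mem_iUnion₂] at hx ⊢
    obtain ⟨i, hi, hxi⟩ := hx
    simp only [Set.mem_setOf_eq, Finset.mem_union, not_or] at hi
    refine ⟨i, hi.2, ?_⟩
    simp only [S', if_neg hi.1]
    exact hxi

theorem wbb_four (hPWA : ST_PWA) (hRLB : ST_RLB) (p : Ty V) (B : Set V) (y : Fin 1 → V)
    (hp : SR X p) (hB : B.Countable) (hy : Rl X p B y) : WB X (p.A ∪ B) (Set.range y) 1 := by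
  intro Y hY hIY m S hS hInd
  classical
  have hA : (p.A ∪ B).Countable := hp.cnt.union hB
  have hAY : (p.A ∪ B ∪ Y).Countable := hA.union hY
  have hyc : (Set.range y).Countable := Set.countable_range y
  have hyY : Rl X p (B ∪ Y) y := (hRLB V G X p hp B hB).2.2.2.1 y Y hY hy hIY
  by_cases hall : SI X (p.A ∪ B ∪ Y) (Set.range y) (⋃ i ∈ {i : Fin m | i ∉ (∅ : Finset (Fin m))},
      S i)
  · exact ⟨∅, by simp, si_symm hAY hyc (wbb_cnt S hS _) hall⟩
  · have hex : ∃ n : ℕ, ¬ SI X (p.A ∪ B ∪ Y) (Set.range y) (⋃ i ∈ {i : Fin m | (i : ℕ) < n},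
        S i) := by
      refine ⟨m, fun h => hall ?_⟩
      refine si_right hAY hyc (wbb_cnt S hS _) (wbb_sub S _ _ ?_) h
      intro i _
      exact i.2
    have hn := Nat.find_spec hex
    have hmin := fun k => Nat.find_min (m := k) hex
    set n := Nat.find hex with hndef
    have hn0 : n ≠ 0 := by
      intro h0
      apply hn
      rw [h0]
      have : (⋃ i ∈ {i : Fin m | (i : ℕ) < 0}, S i) = ∅ := by
        ext x
        simp
      rw [this]
      exact si_empty_right
    obtain ⟨j, hj⟩ := Nat.exists_eq_succ_of_ne_zero hn0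
    have hlt : j < n := by omega
    have hU := hmin j hlt
    rw [not_not] at hU
    have hjm : j < m := by
      by_contra hjm
      apply hn
      refine si_right hAY hyc (wbb_cnt S hS _) (wbb_sub S _ _ ?_) hU
      intro i _
      have := i.2
      simp only [Set.mem_setOf_eq]
      omega
    let j' : Fin m := ⟨j, hjm⟩
    set U : Set V := ⋃ i ∈ {i : Fin m | (i : ℕ) < j}, S i with hUdef
    set W : Set V := ⋃ i ∈ {i : Fin m | j < (i : ℕ)}, S i with hWdef
    have hUc : U.Countable := wbb_cnt S hS _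
    have hWc : W.Countable := wbb_cnt S hS _
    have hUY : Rl X p (B ∪ Y ∪ U) y := by
      refine (hRLB V G X p hp (B ∪ Y) (hB.union hY)).2.2.2.1 y U hUc hyY ?_
      rw [← Set.union_assoc]
      exact hU
    have hnj : ¬ SI X (p.A ∪ B ∪ Y ∪ U) (Set.range y) (S j') := by
      intro h
      apply hn
      refine si_right hAY hyc (hUc.union (hS j')) ?_ (si_trans hAY hyc hUc (hS j') hU h)
      intro x hx
      rw [Set.mem_iUnion₂] at hx
      obtain ⟨i, hi, hxi⟩ := hx
      simp only [Set.mem_setOf_eq] at hi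
      rcases Nat.lt_or_ge (i : ℕ) j with h1 | h1
      · exact Or.inl (Set.mem_biUnion (show i ∈ {i : Fin m | (i : ℕ) < j} from h1) hxi)
      · refine Or.inr ?_
        have : i = j' := Fin.ext (by show (i : ℕ) = j; omega)
        rwa [← this]
    have hSW : SI X (p.A ∪ B ∪ Y ∪ U) (S j') W := by
      have h1 := hInd {j'} {i | i ≠ j'} (by
        rw [Set.disjoint_left]
        rintro i hi h2
        exact h2 hi)
      have h2 : SI X (p.A ∪ B ∪ Y) (S j') (U ∪ W) := by
        have h3 : S j' ⊆ ⋃ i ∈ ({j'} : Set (Fin m)), S i := by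
          intro x hx
          exact Set.mem_biUnion (Set.mem_singleton j') hx
        refine si_left h3 (si_right hAY (wbb_cnt S hS _) (wbb_cnt S hS _) ?_ h1)
        refine Set.union_subset ?_ ?_
        · refine wbb_sub S _ _ ?_
          intro i hi h4
          simp only [Set.mem_setOf_eq] at hi
          rw [h4] at hi
          exact lt_irrefl j hi
        · refine wbb_sub S _ _ ?_
          intro i hi h4
          simp only [Set.mem_setOf_eq] at hi
          rw [h4] at hi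
          exact lt_irrefl j hi
      exact ((si_union hAY (hS j') hUc hWc).1 h2).2
    have e : p.A ∪ (B ∪ Y ∪ U) = p.A ∪ B ∪ Y ∪ U := by
      rw [← Set.union_assoc, ← Set.union_assoc]
    have hP := hPWA V G X p (B ∪ Y ∪ U) (S j') W y hp ((hB.union hY).union hUc) hUY (hS j') hWc
      (by rw [e]; exact hSW)
    rw [e] at hP
    have hyW : SI X (p.A ∪ B ∪ Y ∪ U) (Set.range y) W := hP.resolve_left hnj
    refine ⟨{j'}, by simp, ?_⟩
    refine si_symm hAY hyc (wbb_cnt S hS _) ?_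
    refine si_right hAY hyc (hUc.union hWc) ?_ (si_trans hAY hyc hUc hWc hU hyW)
    intro x hx
    rw [Set.mem_iUnion₂] at hx
    obtain ⟨i, hi, hxi⟩ := hx
    simp only [Set.mem_setOf_eq, Finset.mem_singleton] at hi
    rcases Nat.lt_trichotomy (i : ℕ) j with h1 | h1 | h1
    · exact Or.inl (Set.mem_biUnion (show i ∈ {i : Fin m | (i : ℕ) < j} from h1) hxi)
    · exact absurd (Fin.ext h1) hi
    · exact Or.inr (Set.mem_biUnion (show i ∈ {i : Fin m | j < (i : ℕ)} from h1) hxi)

theorem wbb_five (hIND : ST_IND) (A u v : Set V) (k : ℕ) (hA : A.Countable) (hv : v.Countable)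
    (huv : u ⊆ v) (hw : WB X A v k) : WB X A u k := by
  intro Y hY hIY m S hS hInd
  have hu : u.Countable := hv.mono huv
  have hSc : (⋃ i, S i).Countable := Set.countable_iUnion hS
  obtain ⟨g, hg, hgI⟩ := si_ex (X := X) (hA.union hu) hv (hY.union hSc)
  have hgA : g ∈ Fx G A := (fx_union.1 hg).1
  have hgu : g ∈ Fx G u := (fx_union.1 hg).2
  have hug : u ⊆ tr g v := by
    have := tr_mono g huv
    rwa [tr_fx hgu] at this
  have hgi : g⁻¹ ∈ Fx G A := inv_mem hgA
  have hgvc : (tr g v).Countable := tr_countable g hv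
  have h1 : SI X A (tr g v) Y := by
    have h2 : SI X (A ∪ u) (tr g v) Y :=
      si_right (hA.union hu) hgvc (hY.union hSc) Set.subset_union_left hgI
    exact si_left Set.subset_union_right (si_transl hA hu hY hgvc hIY h2)
  have h2 : SI X A v (tr g⁻¹ Y) := by
    have := (si_fx (X := X) hA hgvc hY hgi).2 h1
    rwa [tr_inv_tr] at this
  have hYc : (tr g⁻¹ Y).Countable := tr_countable _ hY
  have hAe : tr g⁻¹ (A ∪ Y) = A ∪ tr g⁻¹ Y := by rw [tr_union, tr_fx hgi]
  have hI' : Ind X (A ∪ tr g⁻¹ Y) (fun i => tr g⁻¹ (S i)) := by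
    have := (hIND V G X (A ∪ Y) (hA.union hY)).2.2.2.2.2.2.1 (Fin m) S g⁻¹ hS hInd
    rwa [hAe] at this
  obtain ⟨J, hJ, hSJ⟩ := hw (tr g⁻¹ Y) hYc h2 m (fun i => tr g⁻¹ (S i))
    (fun i => tr_countable _ (hS i)) hI'
  refine ⟨J, hJ, ?_⟩
  have e1 : (⋃ i ∈ {i | i ∉ J}, tr g⁻¹ (S i)) = tr g⁻¹ (⋃ i ∈ {i | i ∉ J}, S i) := by
    unfold tr
    rw [Set.image_iUnion₂]
  have e2 : v = tr g⁻¹ (tr g v) := (tr_inv_tr g v).symm
  rw [e1, e2, ← hAe] at hSJ
  have h3 := (si_tr (X := X) (hA.union hY) (wbb_cnt S hS _) hgvc g⁻¹).1 hSJ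
  exact si_right (hA.union hY) (wbb_cnt S hS _) hgvc hug h3

theorem st_WBB (hPWA : ST_PWA) (hIND : ST_IND) (hRLB : ST_RLB) : ST_WBB := by
  intro V G _ _ X
  refine ⟨?_, ?_, ?_, ?_, ?_⟩
  · intro A u k l hkl h Y hY hI m S hS hInd
    obtain ⟨J, hJ, h1⟩ := h Y hY hI m S hS hInd
    exact ⟨J, hJ.trans hkl, h1⟩
  · intro A u Y k hA hu hY h hw
    exact wbb_two A u Y k hA hu hY h hw
  · intro A u v k l hA hu hv h1 h2
    exact wbb_three hIND A u v k l hA hu hv h1 h2
  · intro p B y hp hB hy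
    exact wbb_four hPWA hRLB p B y hp hB hy
  · intro A u v k hA hv huv hw
    exact wbb_five hIND A u v k hA hv huv hw

end Pool.Agent.Helper90.MZ
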